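import Mathlib

set_option autoImplicit false

namespace Pool.Agent.Lib.MP_0a3467_an

open MeasureTheory
open scoped ENNReal

/-- fair coin -/
noncomputable def coin : Measure Bool := (2⁻¹ : ℝ≥0∞) • Measure.dirac true + (2⁻¹ : ℝ≥0∞) • Measure.dirac false

instance : IsProbabilityMeasure coin := ⟨by simp [coin, ENNReal.inv_two_add_inv_two]⟩

lemma coin_not : coin.map not = coin := by
  have h : Measurable not := measurable_of_countable _
  simp only [coin]
  rw [Measure.map_add _ _ h, Measure.map_smul, Measure.map_smul, Measure.map_dirac' h,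
    Measure.map_dirac' h, add_comm]
  rfl

instance : IsProbabilityMeasure (volume : Measure UnitAddCircle) := ⟨by simp⟩

/-- the space of the suspension flow -/
abbrev Sp := UnitAddCircle × (ℤ → Bool)

/-- Bernoulli measure -/
noncomputable def bern : Measure (ℤ → Bool) := Measure.infinitePi fun _ => coin

instance : IsProbabilityMeasure bern := by unfold bern; infer_instance

/-- the invariant measure -/
noncomputable def mu : Measure Sp := (volume : Measure UnitAddCircle).prod bern

instance : IsProbabilityMeasure mu := by unfold mu; infer_instance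

/-- representative in `[0,1)` -/
noncomputable def rep (s : UnitAddCircle) : ℝ := (AddCircle.measurableEquivIco 1 0 s : ℝ)

lemma measurable_rep : Measurable rep :=
  measurable_subtype_coe.comp (AddCircle.measurableEquivIco 1 0).measurable

lemma coe_rep (s : UnitAddCircle) : (rep s : UnitAddCircle) = s :=
  AddCircle.coe_equivIco (a := 0) (y := s)

lemma rep_coe (x : ℝ) : rep (x : UnitAddCircle) = Int.fract x := by
  have := AddCircle.coe_equivIco_mk_apply (p := (1 : ℝ)) x
  rw [div_one, mul_one] at this
  exact this

lemma rep_add (s : UnitAddCircle) (t : ℝ) : rep (s + (t : UnitAddCircle)) = Int.fract (rep s + t) := by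
  rw [← rep_coe, AddCircle.coe_add, coe_rep]

lemma fract_rep (s : UnitAddCircle) : Int.fract (rep s) = rep s := by
  rw [← rep_coe, coe_rep]

lemma rep_nonneg (s : UnitAddCircle) : 0 ≤ rep s := by
  rw [← fract_rep]; exact Int.fract_nonneg _

lemma floor_rep (s : UnitAddCircle) : ⌊rep s⌋ = 0 := by
  rw [← fract_rep, Int.floor_fract]

/-- the suspension flow -/
noncomputable def flow (t : ℝ) (p : Sp) : Sp :=
  (p.1 + (t : UnitAddCircle), fun k => p.2 (k + ⌊rep p.1 + t⌋))

lemma flow_zero (p : Sp) : flow 0 p = p := by
  simp [flow, floor_rep]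

lemma flow_add (t u : ℝ) (p : Sp) : flow (t + u) p = flow t (flow u p) := by
  simp only [flow, Prod.mk.injEq]
  constructor
  · rw [AddCircle.coe_add]; abel
  · funext k
    rw [rep_add, Int.fract,
      show rep p.1 + u - ⌊rep p.1 + u⌋ + t = rep p.1 + (t + u) - ⌊rep p.1 + u⌋ by ring,
      Int.floor_sub_intCast]
    ring_nf

lemma shift_pres (a : ℤ) : Measure.map (fun (x : ℤ → Bool) k => x (k + a)) bern = bern := by
  have h := Measure.infinitePi_map_piCongrLeft (fun _ : ℤ => coin) (Equiv.subRight a)
  have h2 : (fun (x : ℤ → Bool) k => x (k + a)) =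
      ⇑(MeasurableEquiv.piCongrLeft (fun _ => Bool) (Equiv.subRight a)) := by
    funext x k
    have := MeasurableEquiv.piCongrLeft_apply_apply (Equiv.subRight a) (β := fun _ => Bool) x (k + a)
    simpa using this.symm
  rw [h2]
  exact h

lemma measurable_shift : Measurable (fun p : ℤ × (ℤ → Bool) => fun k => p.2 (k + p.1)) := by
  apply measurable_from_prod_countable_right
  intro a
  exact measurable_pi_lambda _ fun k => measurable_pi_apply (k + a)

lemma flow_pres (t : ℝ) : MeasurePreserving (flow t) mu mu := by
  apply MeasurePreserving.skew_product (f := fun s : UnitAddCircle => s + (t : UnitAddCircle))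
    (g := fun s (x : ℤ → Bool) k => x (k + ⌊rep s + t⌋)) (measurePreserving_add_right _ _)
  · have h1 : Measurable (fun p : UnitAddCircle × (ℤ → Bool) => (⌊rep p.1 + t⌋, p.2)) :=
      (Int.measurable_floor.comp ((measurable_rep.comp measurable_fst).add_const t)).prodMk
        measurable_snd
    exact measurable_shift.comp h1
  · exact Filter.Eventually.of_forall fun s => shift_pres _

/-- the flow as a measurable equivalence -/
noncomputable def flowE (t : ℝ) : Sp ≃ᵐ Sp where
  toFun := flow t
  invFun := flow (-t)
  left_inv p := by rw [← flow_add, neg_add_cancel, flow_zero]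
  right_inv p := by rw [← flow_add, add_neg_cancel, flow_zero]
  measurable_toFun := (flow_pres t).measurable
  measurable_invFun := (flow_pres (-t)).measurable

/-- flp all coordinates but the zeroth -/
def flp (p : Sp) : Sp := (p.1, fun k => if k = 0 then p.2 k else !p.2 k)

lemma flp_flp (p : Sp) : flp (flp p) = p := by
  simp only [flp]
  ext k
  · rfl
  · dsimp only
    split_ifs <;> simp

lemma flip_pres : MeasurePreserving flp mu mu := by
  have h1 : MeasurePreserving
      (fun (x : ℤ → Bool) k => (fun (k : ℤ) (b : Bool) => if k = 0 then b else !b) k (x k)) bern bern := by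
    refine ⟨measurable_pi_lambda _ fun k =>
      (measurable_of_countable (fun b : Bool => if k = 0 then b else !b)).comp
        (measurable_pi_apply k), ?_⟩
    unfold bern
    refine (Measure.infinitePi_map_pi (fun _ : ℤ => coin)
      (f := fun (k : ℤ) (b : Bool) => if k = 0 then b else !b)
      (fun k => measurable_of_countable _)).trans ?_
    congr 1
    funext k
    by_cases hk : k = 0
    · simp [hk]
    · simp only [hk, if_false]
      exact coin_not
  exact (MeasurePreserving.id _).prod h1

/-- the flp as a measurable equivalence -/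
def flipE : Sp ≃ᵐ Sp where
  toFun := flp
  invFun := flp
  left_inv := flp_flp
  right_inv := flp_flp
  measurable_toFun := flip_pres.measurable
  measurable_invFun := flip_pres.measurable

/-- the set that does not recur -/
def setA : Set Sp := {p | rep p.1 < 1 / 2 ∧ p.2 0 = true}

lemma setA_eq : setA = {s | rep s < 1 / 2} ×ˢ {x | x 0 = true} := rfl

lemma measurableSet_setA : MeasurableSet setA := by
  rw [setA_eq]
  exact (measurableSet_lt measurable_rep measurable_const).prod
    (measurable_pi_apply (X := fun _ : ℤ => Bool) 0 (measurableSet_singleton true))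

lemma mu_setA_pos : 0 < mu setA := by
  rw [setA_eq, mu, Measure.prod_prod]
  apply ENNReal.mul_pos
  · have h := AddCircle.add_projection_respects_measure 1 0
      (measurableSet_lt measurable_rep (measurable_const (a := (1 / 2 : ℝ))))
    rw [h]
    have hsub : Set.Ioo (0 : ℝ) (1 / 2) ⊆
        QuotientAddGroup.mk ⁻¹' {s : UnitAddCircle | rep s < 1 / 2} ∩ Set.Ioc 0 (0 + 1) := by
      rintro x ⟨h1, h2⟩
      refine ⟨?_, h1, by linarith⟩
      change rep (x : UnitAddCircle) < 1 / 2
      rw [rep_coe, Int.fract_eq_self.mpr ⟨h1.le, by linarith⟩]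
      exact h2
    refine ne_of_gt (lt_of_lt_of_le ?_ (measure_mono hsub))
    simp
  · have h := (measurePreserving_eval_infinitePi (fun _ : ℤ => coin) 0).measure_preimage
      (s := {true}) (measurableSet_singleton true).nullMeasurableSet
    have h2 : bern {x | x 0 = true} = coin {true} := h
    rw [h2]
    simp [coin]

lemma disjoint_key (b c : ℝ) (hb : 1 / 2 ≤ b) (hbc : b ≤ c) (hcb : c ≤ b + 1 / 2) (p : Sp)
    (h1 : flow b p ∈ setA) (h2 : flp (flow c (flp p)) ∈ setA) : False := by
  simp only [setA, flow, flp, Set.mem_ofPred_eq, rep_add, if_true, zero_add] at h1 h2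
  obtain ⟨h1, h1'⟩ := h1
  obtain ⟨h2, h2'⟩ := h2
  have hs := rep_nonneg p.1
  have f1 := Int.fract_nonneg (rep p.1 + b)
  have f2 := Int.fract_nonneg (rep p.1 + c)
  rw [Int.fract] at h1 h2 f1 f2
  have e1 : ⌊rep p.1 + c⌋ = ⌊rep p.1 + b⌋ := by
    have a1 : ((⌊rep p.1 + c⌋ - ⌊rep p.1 + b⌋ : ℤ) : ℝ) < 1 := by push_cast; linarith
    have a2 : (-1 : ℝ) < ((⌊rep p.1 + c⌋ - ⌊rep p.1 + b⌋ : ℤ) : ℝ) := by push_cast; linarith
    have a3 : ⌊rep p.1 + c⌋ - ⌊rep p.1 + b⌋ < 1 := by exact_mod_cast a1
    have a4 : -1 < ⌊rep p.1 + c⌋ - ⌊rep p.1 + b⌋ := by exact_mod_cast a2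
    omega
  have e2 : ⌊rep p.1 + b⌋ ≠ 0 := by
    intro h
    rw [h] at h1
    push_cast at h1
    linarith
  rw [e1, if_neg e2, h1'] at h2'
  simp at h2'

end Pool.Agent.Lib.MP_0a3467_an
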