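import Mathlib

/-!
Two multiplicative actions: positivity of the averages along `m, m + n`.
-/

open MeasureTheory Finset Filter

namespace Pool.Agent.Lib.MP_0a3467_an.Two

variable {X : Type*} [MeasurableSpace X]

/-- Finitely many dilates of every iterate bring back most of `A`. -/
theorem sat (μ : Measure X) [IsProbabilityMeasure μ] (S : ℕ → X → X)
    (hS : ∀ n, 1 ≤ n → MeasurePreserving (S n) μ μ)
    (hmul : ∀ m n, 1 ≤ m → 1 ≤ n → S (m * n) =ᵐ[μ] S m ∘ S n) {A : Set X} (hA : MeasurableSet A)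
    {e : ℝ} (he : 0 < e) :
    ∀ᶠ Q : ℕ in atTop, ∀ m, 1 ≤ m → μ.real (A \ ⋃ r ∈ Icc 1 Q, S (r * m) ⁻¹' A) ≤ e := by
  set B : Set X := ⋃ r : ℕ, S (r + 1) ⁻¹' A with hB
  set C : ℕ → Set X := fun Q => B \ ⋃ r ∈ Icc 1 Q, S r ⁻¹' A with hC
  have hBm : MeasurableSet B :=
    MeasurableSet.iUnion fun r => (hS _ (Nat.succ_pos r)).measurable hA
  have hCm : ∀ Q, MeasurableSet (C Q) := fun Q => hBm.diff
    (Finset.measurableSet_biUnion _ fun r hr => (hS _ (mem_Icc.1 hr).1).measurable hA)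
  have hanti : Antitone C := fun Q Q' h => Set.sdiff_subset_sdiff_right
    (Set.biUnion_subset_biUnion_left fun r hr => Icc_subset_Icc_right h hr)
  have hemp : ⋂ Q, C Q = ∅ := by
    rw [Set.eq_empty_iff_forall_notMem]
    intro x hx
    rw [Set.mem_iInter] at hx
    obtain ⟨r, hr⟩ := Set.mem_iUnion.1 (hx 0).1
    exact (hx (r + 1)).2 (Set.mem_biUnion (mem_coe.2 (mem_Icc.2 ⟨Nat.succ_pos r, le_rfl⟩)) hr)
  have hlim : Tendsto (fun Q => μ (C Q)) atTop (nhds 0) := by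
    have := tendsto_measure_iInter_atTop (μ := μ) (fun Q => (hCm Q).nullMeasurableSet) hanti
      ⟨0, measure_ne_top _ _⟩
    rwa [hemp, measure_empty] at this
  have hlim' : Tendsto (fun Q => μ.real (C Q)) atTop (nhds 0) := by
    exact (ENNReal.tendsto_toReal ENNReal.zero_ne_top).comp hlim
  have hall : ∀ m, 1 ≤ m → ∀ᵐ x ∂μ, ∀ r, 1 ≤ r → S (r * m) x = S r (S m x) := by
    intro m hm
    rw [ae_all_iff]
    intro r
    by_cases hr : 1 ≤ r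
    · filter_upwards [hmul r m hr hm] with x hx _ using hx
    · exact Eventually.of_forall fun x h => absurd h hr
  have hAB : ∀ᵐ x ∂μ, x ∈ A → x ∈ B := by
    have h0 : μ (S 1 ⁻¹' (A \ B)) = 0 := by
      rw [← compl_mem_ae_iff]
      filter_upwards [hall 1 le_rfl] with x hx hx'
      refine hx'.2 (Set.mem_iUnion.2 ⟨0, ?_⟩)
      have h1 := hx 1 le_rfl
      rw [Set.mem_preimage, zero_add, ← h1]
      exact hx'.1
    rw [(hS 1 le_rfl).measure_preimage (hA.diff hBm).nullMeasurableSet, ← compl_mem_ae_iff] at h0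
    filter_upwards [h0] with x hx hxA
    by_contra hxB
    exact hx ⟨hxA, hxB⟩
  have hBB : ∀ m, 1 ≤ m → ∀ᵐ x ∂μ, x ∈ B → S m x ∈ B := by
    intro m hm
    have h1 : S m ⁻¹' B ≤ᵐ[μ] B := by
      filter_upwards [hall m hm] with x hx hxB
      obtain ⟨r, hr⟩ := Set.mem_iUnion.1 hxB
      refine Set.mem_iUnion.2 ⟨(r + 1) * m - 1, ?_⟩
      have h2 : 1 ≤ (r + 1) * m := Nat.mul_pos (Nat.succ_pos r) hm
      rw [Set.mem_preimage, Nat.sub_add_cancel h2, hx _ (Nat.succ_pos r)]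
      exact hr
    have h3 := ae_eq_of_ae_subset_of_measure_ge h1
      ((hS m hm).measure_preimage hBm.nullMeasurableSet).ge
      ((hS m hm).measurable hBm).nullMeasurableSet (measure_ne_top _ _)
    filter_upwards [h3] with x hx hxB
    exact (iff_of_eq hx).2 hxB
  filter_upwards [hlim'.eventually (Iic_mem_nhds he)] with Q hQ m hm
  refine le_trans ?_ hQ
  have h4 : (A \ ⋃ r ∈ Icc 1 Q, S (r * m) ⁻¹' A : Set X) ≤ᵐ[μ] S m ⁻¹' C Q := by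
    filter_upwards [hAB, hBB m hm, hall m hm] with x h1 h2 h3 hx
    refine ⟨h2 (h1 hx.1), fun h5 => hx.2 ?_⟩
    obtain ⟨r, hr, h6⟩ := Set.mem_iUnion₂.1 h5
    refine Set.mem_iUnion₂.2 ⟨r, hr, ?_⟩
    rw [Set.mem_preimage, h3 r (mem_Icc.1 hr).1]
    exact h6
  have h5 := measure_mono_ae h4
  rw [(hS m hm).measure_preimage (hCm Q).nullMeasurableSet] at h5
  exact ENNReal.toReal_mono (measure_ne_top _ _) h5

/-- The counting step. -/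
theorem count (c : ℕ → ℕ → ℝ) (hc : ∀ a b, 0 ≤ c a b) {Q : ℕ} {d : ℝ}
    (hd : ∀ m k, 1 ≤ m → 1 ≤ k → d ≤ ∑ r ∈ Icc 1 Q, ∑ s ∈ Icc 1 Q, c (r * m) (s * k))
    {M N : ℕ} (hM : Q * (Q + 1) * M ≤ N) :
    (M : ℝ) ^ 2 * d ≤ (Q : ℝ) ^ 2 * ∑ a ∈ Icc 1 N, ∑ n ∈ Icc 1 N, c a (a + n) := by
  set P : Finset (ℕ × ℕ) := Icc 1 M ×ˢ Ioc (Q * M) (Q * M + M) with hP
  have hcard : (P.card : ℝ) = (M : ℝ) ^ 2 := by
    rw [hP, card_product, Nat.card_Icc, Nat.card_Ioc]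
    simp [sq]
  have h1 : (M : ℝ) ^ 2 * d ≤ ∑ z ∈ P, ∑ r ∈ Icc 1 Q, ∑ s ∈ Icc 1 Q, c (r * z.1) (s * z.2) := by
    rw [← hcard, ← nsmul_eq_mul]
    refine card_nsmul_le_sum _ _ _ fun z hz => ?_
    obtain ⟨hz1, hz2⟩ := mem_product.1 hz
    exact hd _ _ (mem_Icc.1 hz1).1 (by have := (mem_Ioc.1 hz2).1; omega)
  have h2 : ∀ r ∈ Icc 1 Q, ∀ s ∈ Icc 1 Q, ∑ z ∈ P, c (r * z.1) (s * z.2) ≤
      ∑ a ∈ Icc 1 N, ∑ n ∈ Icc 1 N, c a (a + n) := by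
    intro r hr s hs
    obtain ⟨hr1, hr2⟩ := mem_Icc.1 hr
    obtain ⟨hs1, hs2⟩ := mem_Icc.1 hs
    have key : ∀ z ∈ P, 1 ≤ r * z.1 ∧ r * z.1 < s * z.2 ∧ s * z.2 ≤ N := by
      intro z hz
      obtain ⟨hz1, hz2⟩ := mem_product.1 hz
      obtain ⟨a1, a2⟩ := mem_Icc.1 hz1
      obtain ⟨b1, b2⟩ := mem_Ioc.1 hz2
      refine ⟨Nat.mul_pos hr1 a1, ?_, ?_⟩
      · calc r * z.1 ≤ Q * M := Nat.mul_le_mul hr2 a2
          _ < z.2 := b1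
          _ ≤ s * z.2 := Nat.le_mul_of_pos_left _ hs1
      · calc s * z.2 ≤ Q * (Q * M + M) := Nat.mul_le_mul hs2 b2
          _ = Q * (Q + 1) * M := by ring
          _ ≤ N := hM
    rw [← sum_product']
    have hinj : Set.InjOn (fun z : ℕ × ℕ => (r * z.1, s * z.2 - r * z.1)) P := by
      intro z hz w hw h
      obtain ⟨e1, e2⟩ := Prod.mk.inj h
      have k1 := key z hz
      have k2 := key w hw
      have e3 : s * z.2 = s * w.2 := by omega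
      exact Prod.ext (Nat.eq_of_mul_eq_mul_left hr1 e1) (Nat.eq_of_mul_eq_mul_left hs1 e3)
    calc ∑ z ∈ P, c (r * z.1) (s * z.2)
        = ∑ z ∈ P, (fun y : ℕ × ℕ => c y.1 (y.1 + y.2)) (r * z.1, s * z.2 - r * z.1) := by
          refine sum_congr rfl fun z hz => ?_
          have k1 := key z hz
          simp only
          rw [Nat.add_sub_cancel' k1.2.1.le]
      _ = ∑ y ∈ P.image (fun z : ℕ × ℕ => (r * z.1, s * z.2 - r * z.1)), c y.1 (y.1 + y.2) :=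
          (sum_image (f := fun y : ℕ × ℕ => c y.1 (y.1 + y.2)) hinj).symm
      _ ≤ _ := by
          refine sum_le_sum_of_subset_of_nonneg (fun y hy => ?_) fun _ _ _ => hc _ _
          obtain ⟨z, hz, rfl⟩ := mem_image.1 hy
          have k1 := key z hz
          exact mem_product.2 ⟨mem_Icc.2 ⟨k1.1, by omega⟩, mem_Icc.2 ⟨by omega, by omega⟩⟩
  refine h1.trans ?_
  rw [sum_comm]
  have h3 : ∀ r ∈ Icc 1 Q, ∑ z ∈ P, ∑ s ∈ Icc 1 Q, c (r * z.1) (s * z.2) ≤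
      (Q : ℝ) * ∑ a ∈ Icc 1 N, ∑ n ∈ Icc 1 N, c a (a + n) := by
    intro r hr
    rw [sum_comm]
    refine (sum_le_card_nsmul _ _ _ (h2 r hr)).trans (le_of_eq ?_)
    simp
  refine (sum_le_card_nsmul _ _ _ h3).trans (le_of_eq ?_)
  simp [sq, mul_assoc]

/-- A uniform lower bound for the averages. -/
theorem lower (μ : Measure X) [IsProbabilityMeasure μ] (S T : ℕ → X → X)
    (hS : ∀ n, 1 ≤ n → MeasurePreserving (S n) μ μ)
    (hSm : ∀ m n, 1 ≤ m → 1 ≤ n → S (m * n) =ᵐ[μ] S m ∘ S n)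
    (hT : ∀ n, 1 ≤ n → MeasurePreserving (T n) μ μ)
    (hTm : ∀ m n, 1 ≤ m → 1 ≤ n → T (m * n) =ᵐ[μ] T m ∘ T n) {A : Set X} (hA : MeasurableSet A)
    (h0 : 0 < μ A) :
    ∃ d : ℝ, 0 < d ∧ ∀ᶠ N : ℕ in atTop, d ≤ (∑ m ∈ Icc 1 N, ∑ n ∈ Icc 1 N,
      μ.real (S m ⁻¹' A ∩ T (m + n) ⁻¹' A)) / (N : ℝ) ^ 2 := by
  have ha : 0 < μ.real A := ENNReal.toReal_pos h0.ne' (measure_ne_top _ _)
  have he : 0 < μ.real A / 4 := by positivity
  obtain ⟨Q, ⟨h1, h2⟩, hQ⟩ := (((sat μ S hS hSm hA he).and (sat μ T hT hTm hA he)).and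
    (eventually_ge_atTop 1)).exists
  have hd : ∀ m k, 1 ≤ m → 1 ≤ k → μ.real A / 2 ≤
      ∑ r ∈ Icc 1 Q, ∑ s ∈ Icc 1 Q, μ.real (S (r * m) ⁻¹' A ∩ T (s * k) ⁻¹' A) := by
    intro m k hm hk
    have h3 : A ⊆ ((A \ ⋃ r ∈ Icc 1 Q, S (r * m) ⁻¹' A) ∪ (A \ ⋃ s ∈ Icc 1 Q, T (s * k) ⁻¹' A)) ∪
        ⋃ r ∈ Icc 1 Q, ⋃ s ∈ Icc 1 Q, S (r * m) ⁻¹' A ∩ T (s * k) ⁻¹' A := by
      intro x hx
      by_cases a1 : x ∈ ⋃ r ∈ Icc 1 Q, S (r * m) ⁻¹' A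
      · by_cases a2 : x ∈ ⋃ s ∈ Icc 1 Q, T (s * k) ⁻¹' A
        · obtain ⟨r, hr, a3⟩ := Set.mem_iUnion₂.1 a1
          obtain ⟨s, hs, a4⟩ := Set.mem_iUnion₂.1 a2
          exact Or.inr (Set.mem_iUnion₂.2 ⟨r, hr, Set.mem_iUnion₂.2 ⟨s, hs, a3, a4⟩⟩)
        · exact Or.inl (Or.inr ⟨hx, a2⟩)
      · exact Or.inl (Or.inl ⟨hx, a1⟩)
    have h4 := (measureReal_mono h3 (measure_ne_top μ _)).trans (measureReal_union_le _ _)
    have h5 := measureReal_union_le (μ := μ) (A \ ⋃ r ∈ Icc 1 Q, S (r * m) ⁻¹' A)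
      (A \ ⋃ s ∈ Icc 1 Q, T (s * k) ⁻¹' A)
    have h6 : μ.real (⋃ r ∈ Icc 1 Q, ⋃ s ∈ Icc 1 Q, S (r * m) ⁻¹' A ∩ T (s * k) ⁻¹' A) ≤
        ∑ r ∈ Icc 1 Q, ∑ s ∈ Icc 1 Q, μ.real (S (r * m) ⁻¹' A ∩ T (s * k) ⁻¹' A) :=
      (measureReal_biUnion_finset_le _ _).trans
        (sum_le_sum fun r _ => measureReal_biUnion_finset_le _ _)
    linarith [h1 m hm, h2 k hk]
  have hK : 0 < Q * (Q + 1) := Nat.mul_pos hQ (Nat.succ_pos Q)
  have hQ0 : (0 : ℝ) < Q := by exact_mod_cast hQ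
  refine ⟨μ.real A / 2 / ((Q : ℝ) ^ 2 * (2 * (Q * (Q + 1))) ^ 2), by positivity, ?_⟩
  filter_upwards [eventually_ge_atTop (Q * (Q + 1))] with N hN
  have h7 := count (fun a b => μ.real (S a ⁻¹' A ∩ T b ⁻¹' A)) (fun _ _ => measureReal_nonneg) hd
    (M := N / (Q * (Q + 1))) (N := N) (Nat.mul_div_le _ _)
  have hM1 : 1 ≤ N / (Q * (Q + 1)) := (Nat.le_div_iff_mul_le hK).2 (by simpa using hN)
  have hM2 : N ≤ 2 * (Q * (Q + 1)) * (N / (Q * (Q + 1))) := by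
    have := Nat.lt_mul_div_succ N hK
    nlinarith
  have hM3 : (N : ℝ) ≤ 2 * (Q * (Q + 1)) * ((N / (Q * (Q + 1)) : ℕ) : ℝ) := by exact_mod_cast hM2
  have hN0 : (0 : ℝ) < N := by exact_mod_cast hK.trans_le hN
  set M : ℝ := ((N / (Q * (Q + 1)) : ℕ) : ℝ)
  set Z := ∑ m ∈ Icc 1 N, ∑ n ∈ Icc 1 N, μ.real (S m ⁻¹' A ∩ T (m + n) ⁻¹' A)
  rw [div_le_div_iff₀ (by positivity) (by positivity)]
  have h8 : (N : ℝ) ^ 2 ≤ (2 * (Q * (Q + 1)) * M) ^ 2 := pow_le_pow_left₀ hN0.le hM3 2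
  calc μ.real A / 2 * (N : ℝ) ^ 2 ≤ μ.real A / 2 * (2 * (Q * (Q + 1)) * M) ^ 2 :=
        mul_le_mul_of_nonneg_left h8 (by positivity)
    _ = (M ^ 2 * (μ.real A / 2)) * (2 * (Q * (Q + 1))) ^ 2 := by ring
    _ ≤ ((Q : ℝ) ^ 2 * Z) * (2 * (Q * (Q + 1))) ^ 2 := mul_le_mul_of_nonneg_right h7 (by positivity)
    _ = _ := by ring

end Pool.Agent.Lib.MP_0a3467_an.Two
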